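import Pool.Agent.W434.BW.StmB

/-!
# Complementary paths (task BW-LONG)
-/

set_option autoImplicit false

namespace Pool.Agent.W67.BW

open Pool.Agent.W434.BW

theorem length_rep {St : Type} (j : ℕ) (l : List St) : (rep j l).length = j * l.length := by
  induction j with
  | zero => simp [rep]
  | succ j ih => rw [rep_succ, List.length_append, ih]; ring

theorem end_unique {V St A : Type} (S : Sys V St A) (l : List St) (x y y' : V)
    (h : S.IsPath l x y) (h' : S.IsPath l x y') : y = y' := by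
  induction l generalizing x with
  | nil => exact (Eq.symm h).trans h'
  | cons s l ih => exact ih _ h.2 h'.2

theorem start_unique {V St A : Type} (S : Sys V St A) (l : List St) (x x' y : V)
    (h : S.IsPath l x y) (h' : S.IsPath l x' y) : x = x' := by
  cases l with
  | nil =>
    have h1 : x = y := h
    have h2 : x' = y := h'
    rw [h1, h2]
  | cons s l => exact h.1.symm.trans h'.1

theorem back {V St A : Type} (S : Sys V St A) (hS : S.Ok) (l : List St) (x y : V)
    (h : S.IsPath l x y) (b : A) (hb : b ∈ S.P y) : ∃ a ∈ S.P x, S.Rl l a b := by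
  obtain ⟨a, ha, hr⟩ := Sys.rl_ext S hS (S.rv l) y x (Sys.isPath_rv S hS l x y h) b hb
  exact ⟨a, ha, (Sys.rl_rv S hS l a b).1 hr⟩

theorem long (hP : S_pr) : S_long := by
  intro V St A _ S hS hQ s π ρ hπ hρ
  obtain ⟨Nc, hNc⟩ := hP V St A S hS hQ (S.src s) (π ++ ρ)
    ((Sys.isPath_append S π ρ _ _).2 ⟨_, hπ, hρ⟩)
  obtain ⟨Nd, hNd⟩ := hP V St A S hS hQ (S.tgt s) (ρ ++ π)
    ((Sys.isPath_append S ρ π _ _).2 ⟨_, hρ, hπ⟩)
  obtain ⟨NQ, hNQ⟩ := hQ s π ρ hπ hρ
  have hcp : S.IsPath (π ++ ρ) (S.src s) (S.src s) :=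
    (Sys.isPath_append S π ρ _ _).2 ⟨_, hπ, hρ⟩
  have hdp : S.IsPath (ρ ++ π) (S.tgt s) (S.tgt s) :=
    (Sys.isPath_append S ρ π _ _).2 ⟨_, hρ, hπ⟩
  set N1 := Nc + Nd + NQ with hN1
  obtain ⟨cr, cs, ct, cp⟩ := hNc N1 (by omega)
  obtain ⟨dr, ds, dt, dp⟩ := hNd N1 (by omega)
  have hQ1 := hNQ N1 (by omega)
  -- fact (i)
  have fi : ∀ (m : ℕ) (a a' b : A), a ∈ S.P (S.src s) → a' ∈ S.P (S.src s) → S.E s a b →
      S.Rl (rep m (π ++ ρ) ++ π) a' b → S.Rl (rep N1 (π ++ ρ)) a a' := by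
    intro m a a' b ha ha' hab h
    obtain ⟨e, he, hre⟩ := Sys.rl_ext S hS ρ _ _ hρ b (hS.dom s a b hab).2
    have h1 : S.Rl (rep (m + 1) (π ++ ρ)) a' e := by
      rw [rep_succ', ← List.append_assoc]
      exact (Sys.rl_append S _ _ _ _).2 ⟨b, h, hre⟩
    have h2 : S.Rl (rep (N1 + 1) (π ++ ρ)) a e := by
      rw [rep_succ', ← List.append_assoc]
      have h3 := hQ1 a b hab
      rw [rep_shift] at h3
      exact (Sys.rl_append S _ _ _ _).2 ⟨b, h3, hre⟩
    have h3 := cp _ a ha e h2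
    have h4 := cs a' ha' e (cp _ a' ha' e h1)
    exact ct a ha e a' h3 h4
  -- fact (ii)
  have fii : ∀ (m : ℕ) (a b b' : A), a ∈ S.P (S.src s) → b' ∈ S.P (S.tgt s) → S.E s a b →
      S.Rl (π ++ rep m (ρ ++ π)) a b' → S.Rl (rep N1 (ρ ++ π)) b' b := by
    intro m a b b' ha hb' hab h
    obtain ⟨e, he, hre⟩ := back S hS ρ _ _ hρ a ha
    have h1 : S.Rl (rep (m + 1) (ρ ++ π)) e b' := by
      rw [rep_succ, List.append_assoc]
      exact (Sys.rl_append S _ _ _ _).2 ⟨a, hre, h⟩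
    have h2 : S.Rl (rep (N1 + 1) (ρ ++ π)) e b := by
      rw [rep_succ, List.append_assoc]
      exact (Sys.rl_append S _ _ _ _).2 ⟨a, hre, hQ1 a b hab⟩
    have h3 := dp _ e he b h2
    have h4 := ds e he b' (dp _ e he b' h1)
    exact dt b' hb' e b h4 h3
  refine ⟨3 * N1 + 3, ?_⟩
  intro j hj w1 μ w3 z z' hw hw1 hμ hw3
  have hlen : w1.length + (μ.length + w3.length) = j * (π ++ ρ).length + π.length := by
    have := congrArg List.length hw
    rw [rep_shift, List.length_append, List.length_append, List.length_append, length_rep] at this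
    omega
  have hcd : (ρ ++ π).length = (π ++ ρ).length := by
    rw [List.length_append, List.length_append]; omega
  have hwc : rep j (π ++ ρ) ++ π = w1 ++ (μ ++ w3) := by rw [← rep_shift]; exact hw
  rcases Nat.eq_zero_or_pos (π ++ ρ).length with hL | hL
  · -- case 0
    left
    have hc0 : π ++ ρ = [] := List.eq_nil_of_length_eq_zero hL
    obtain ⟨rfl, rfl⟩ := List.append_eq_nil_iff.mp hc0
    have hz : w1 = [] ∧ μ = [] ∧ w3 = [] := by
      have h1 : w1.length + (μ.length + w3.length) = 0 := by simpa using hlen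
      exact ⟨List.eq_nil_of_length_eq_zero (by omega), List.eq_nil_of_length_eq_zero (by omega),
        List.eq_nil_of_length_eq_zero (by omega)⟩
    obtain ⟨rfl, rfl, rfl⟩ := hz
    intro c1 hc1 c2 hc12
    have e1 : S.src s = z := hw1
    subst e1
    have e2 : c1 = c2 := hc12
    subst e2
    obtain ⟨b, hb⟩ := hS.ext s c1 hc1
    have h1 := hQ1 c1 b hb
    have hrep : ∀ n : ℕ, rep n (([] : List St) ++ []) = [] := by
      intro n
      apply List.eq_nil_of_length_eq_zero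
      rw [length_rep]
      simp
    rw [hrep] at h1
    have e3 : c1 = b := h1
    subst e3
    exact ⟨c1, c1, rfl, hb, rfl⟩
  by_cases hcase1 : N1 * (π ++ ρ).length ≤ w1.length
  · -- case 1
    left
    have hpre1 : rep N1 (π ++ ρ) <+: w1 ++ (μ ++ w3) := by
      rw [← hwc]
      refine ⟨rep (j - N1) (π ++ ρ) ++ π, ?_⟩
      rw [← List.append_assoc, ← rep_add, Nat.add_sub_cancel' (by omega)]
    have hpre2 : w1 <+: w1 ++ (μ ++ w3) := List.prefix_append _ _
    obtain ⟨w1', hw1'⟩ := List.prefix_of_prefix_length_le hpre1 hpre2 (by rw [length_rep]; exact hcase1)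
    have hrest : w1' ++ (μ ++ w3) = rep (j - N1) (π ++ ρ) ++ π := by
      have h1 : rep N1 (π ++ ρ) ++ (w1' ++ (μ ++ w3)) =
          rep N1 (π ++ ρ) ++ (rep (j - N1) (π ++ ρ) ++ π) := by
        rw [← List.append_assoc, hw1', ← hwc, ← List.append_assoc, ← rep_add,
          Nat.add_sub_cancel' (by omega)]
      exact List.append_cancel_left h1
    have hpw1' : S.IsPath w1' (S.src s) z := by
      rw [← hw1'] at hw1
      obtain ⟨y0, h1, h2⟩ := (Sys.isPath_append S _ _ _ _).1 hw1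
      have := end_unique S _ _ _ _ (Sys.isPath_rep S _ _ hcp N1) h1
      rw [this]
      exact h2
    intro c1 hc1 c2 hc12
    have hc2 := Sys.rl_dom S hS μ z z' hμ c1 c2 hc1 hc12
    obtain ⟨b, hb, hr3⟩ := Sys.rl_ext S hS w3 _ _ hw3 c2 hc2
    obtain ⟨a0, ha0⟩ := hS.ext (S.rev s) b (by rw [hS.src_rev]; exact hb)
    rw [hS.rev_E] at ha0
    obtain ⟨a1, ha1, hr1⟩ := back S hS w1' _ _ hpw1' c1 hc1
    have h5 : S.Rl (rep (j - N1) (π ++ ρ) ++ π) a1 b := by
      rw [← hrest]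
      exact (Sys.rl_append S _ _ _ _).2 ⟨c1, hr1, (Sys.rl_append S _ _ _ _).2 ⟨c2, hc12, hr3⟩⟩
    have h6 := fi _ a0 a1 b (hS.dom s a0 b ha0).1 ha1 ha0 h5
    refine ⟨a0, b, ?_, ha0, hr3⟩
    rw [← hw1']
    exact (Sys.rl_append S _ _ _ _).2 ⟨a1, h6, hr1⟩
  by_cases hcase2 : N1 * (π ++ ρ).length ≤ w3.length
  · -- case 2
    left
    have hw' : π ++ rep j (ρ ++ π) = (w1 ++ μ) ++ w3 := by rw [List.append_assoc]; exact hw
    have hdec : π ++ rep j (ρ ++ π) = (π ++ rep (j - N1) (ρ ++ π)) ++ rep N1 (ρ ++ π) := by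
      rw [List.append_assoc, ← rep_add, Nat.sub_add_cancel (by omega)]
    have hsuf1 : rep N1 (ρ ++ π) <:+ (w1 ++ μ) ++ w3 := by
      rw [← hw', hdec]
      exact List.suffix_append _ _
    have hsuf2 : w3 <:+ (w1 ++ μ) ++ w3 := List.suffix_append _ _
    obtain ⟨w3', hw3'⟩ := List.suffix_of_suffix_length_le hsuf1 hsuf2
      (by rw [length_rep, hcd]; exact hcase2)
    have hrest : (w1 ++ μ) ++ w3' = π ++ rep (j - N1) (ρ ++ π) := by
      have h1 : ((w1 ++ μ) ++ w3') ++ rep N1 (ρ ++ π) =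
          (π ++ rep (j - N1) (ρ ++ π)) ++ rep N1 (ρ ++ π) := by
        rw [List.append_assoc, hw3', ← hw', hdec]
      exact List.append_cancel_right h1
    have hpw3' : S.IsPath w3' z' (S.tgt s) := by
      rw [← hw3'] at hw3
      obtain ⟨y0, h1, h2⟩ := (Sys.isPath_append S _ _ _ _).1 hw3
      have := start_unique S _ _ _ _ (Sys.isPath_rep S _ _ hdp N1) h2
      rw [this]
      exact h1
    intro c1 hc1 c2 hc12
    have hc2 := Sys.rl_dom S hS μ z z' hμ c1 c2 hc1 hc12
    obtain ⟨a, ha, hra⟩ := back S hS w1 _ _ hw1 c1 hc1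
    obtain ⟨b, hb⟩ := hS.ext s a ha
    obtain ⟨b1, hb1, hrb⟩ := Sys.rl_ext S hS w3' _ _ hpw3' c2 hc2
    have h5 : S.Rl (π ++ rep (j - N1) (ρ ++ π)) a b1 := by
      rw [← hrest]
      exact (Sys.rl_append S _ _ _ _).2 ⟨c2, (Sys.rl_append S _ _ _ _).2 ⟨c1, hra, hc12⟩, hrb⟩
    have h6 := fii _ a b b1 ha hb1 hb h5
    refine ⟨a, b, hra, hb, ?_⟩
    rw [← hw3']
    exact (Sys.rl_append S _ _ _ _).2 ⟨b1, hrb, h6⟩
  · -- case 3
    right
    push Not at hcase1 hcase2
    set L := (π ++ ρ).length with hLdef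
    have hπL : π.length ≤ L := by rw [hLdef, List.length_append]; omega
    -- the number of full turns
    obtain ⟨k, hk1, hk2⟩ : ∃ k : ℕ, w1.length ≤ k * L ∧ k * L < w1.length + L := by
      refine ⟨(w1.length + L - 1) / L, ?_, ?_⟩
      · have h1 := Nat.lt_div_mul_add hL (a := w1.length + L - 1)
        omega
      · have h1 := Nat.div_mul_le_self (w1.length + L - 1) L
        omega
    have e1 : (k + N1) * L = k * L + N1 * L := by ring
    have hμlen : (N1 + 1) * L ≤ μ.length := by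
      have e2 : (N1 + 1) * L = N1 * L + L := by ring
      have e3 : (3 * N1 + 3) * L = 3 * (N1 * L) + 3 * L := by ring
      have e4 : (3 * N1 + 3) * L ≤ j * L := Nat.mul_le_mul_right L hj
      omega
    have e2 : (N1 + 1) * L = N1 * L + L := by ring
    have hkj : k + N1 ≤ j := by
      by_contra hcon
      push Not at hcon
      have h1 : (j + 1) * L ≤ (k + N1) * L := Nat.mul_le_mul_right L hcon
      have h2 : (j + 1) * L = j * L + L := by ring
      omega
    have hpre1 : rep (k + N1) (π ++ ρ) <+: (w1 ++ μ) ++ w3 := by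
      rw [List.append_assoc, ← hwc]
      refine ⟨rep (j - (k + N1)) (π ++ ρ) ++ π, ?_⟩
      rw [← List.append_assoc, ← rep_add, Nat.add_sub_cancel' hkj]
    have h9 : (w1 ++ μ).length = w1.length + μ.length := List.length_append
    obtain ⟨μ2, hμ2⟩ := List.prefix_of_prefix_length_le hpre1 (List.prefix_append (w1 ++ μ) w3)
      (by rw [length_rep, ← hLdef, h9]; omega)
    have hpre2 : rep k (π ++ ρ) <+: w1 ++ (μ ++ w3) := by
      rw [← hwc]
      refine ⟨rep (j - k) (π ++ ρ) ++ π, ?_⟩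
      rw [← List.append_assoc, ← rep_add, Nat.add_sub_cancel' (by omega)]
    obtain ⟨μ1, hμ1⟩ := List.prefix_of_prefix_length_le (List.prefix_append w1 (μ ++ w3)) hpre2
      (by rw [length_rep]; exact hk1)
    have hμeq : μ = μ1 ++ (rep N1 (π ++ ρ) ++ μ2) := by
      have h1 : w1 ++ μ = w1 ++ (μ1 ++ (rep N1 (π ++ ρ) ++ μ2)) := by
        rw [← hμ2, rep_add, ← hμ1]
        simp only [List.append_assoc]
      exact List.append_cancel_left h1
    have hrest : μ2 ++ w3 = rep (j - (k + N1)) (π ++ ρ) ++ π := by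
      have h1 : rep (k + N1) (π ++ ρ) ++ (μ2 ++ w3) =
          rep (k + N1) (π ++ ρ) ++ (rep (j - (k + N1)) (π ++ ρ) ++ π) := by
        rw [← List.append_assoc, hμ2, List.append_assoc, ← hwc, ← List.append_assoc, ← rep_add,
          Nat.add_sub_cancel' hkj]
      exact List.append_cancel_left h1
    -- the paths
    rw [hμeq] at hμ
    obtain ⟨y1, hp1, hp2⟩ := (Sys.isPath_append S _ _ _ _).1 hμ
    obtain ⟨y2, hp3, hp4⟩ := (Sys.isPath_append S _ _ _ _).1 hp2
    have hy1 : S.src s = y1 := by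
      have h1 : S.IsPath (rep k (π ++ ρ)) (S.src s) y1 := by
        rw [← hμ1]
        exact (Sys.isPath_append S _ _ _ _).2 ⟨z, hw1, hp1⟩
      exact end_unique S _ _ _ _ (Sys.isPath_rep S _ _ hcp k) h1
    subst hy1
    have hy2 : S.src s = y2 := end_unique S _ _ _ _ (Sys.isPath_rep S _ _ hcp N1) hp3
    subst hy2
    rintro c1 hc1 c2 hc2 ⟨a, b, hra, hab, hrb⟩
    have ha := (hS.dom s a b hab).1
    obtain ⟨e1', he1, hre1⟩ := Sys.rl_ext S hS μ1 _ _ hp1 c1 hc1
    obtain ⟨e2', he2, hre2⟩ := back S hS μ2 _ _ hp4 c2 hc2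
    have h1 : S.Rl (rep k (π ++ ρ)) a e1' := by
      rw [← hμ1]
      exact (Sys.rl_append S _ _ _ _).2 ⟨c1, hra, hre1⟩
    have h2 : S.Rl (rep (j - (k + N1)) (π ++ ρ) ++ π) e2' b := by
      rw [← hrest]
      exact (Sys.rl_append S _ _ _ _).2 ⟨c2, hre2, hrb⟩
    have h3 := cs a ha e1' (cp _ a ha e1' h1)
    have h4 := fi _ a e2' b ha he2 hab h2
    have h5 := ct e1' he1 a e2' h3 h4
    rw [hμeq]
    exact (Sys.rl_append S _ _ _ _).2 ⟨e1', hre1, (Sys.rl_append S _ _ _ _).2 ⟨e2', h5, hre2⟩⟩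

end Pool.Agent.W67.BW
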